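import Mathlib
import Pool.Agent.TH881.RK.DefsL

/-! Lifting a set of classes to a larger modulus. -/

set_option autoImplicit false

namespace Pool.Agent.TH381.J4392

open Finset Filter Topology
open Pool.Agent.TH881
open Pool.Agent.TH881.RG
open Pool.Agent.TH881.RQ
open Pool.Agent.TH881.RK
open Pool.Agent.H373R2.T7

theorem card_pre {G H : Type*} [AddGroup G] [AddGroup H] [Fintype G] [Fintype H] [DecidableEq H]
    (f : G →+ H) (hf : Function.Surjective f) (X : Finset H) :
    (univ.filter (fun g => f g ∈ X)).card * Fintype.card H = X.card * Fintype.card G := by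
  have hc : ∀ h : H, (univ.filter (fun g => f g = h)).card =
      (univ.filter (fun g => f g = (0 : H))).card := fun h =>
    AddMonoidHom.card_fiber_eq_of_mem_range f (hf h) (hf 0)
  have h1 : (univ.filter (fun g => f g ∈ X)).card =
      X.card * (univ.filter (fun g => f g = (0 : H))).card := by
    rw [card_eq_sum_card_fiberwise (f := f) (t := X) (fun g hg => by simpa using hg)]
    rw [← smul_eq_mul, ← sum_const]
    apply sum_congr rfl
    intro h hh
    rw [← hc h, filter_filter]
    congr 1
    ext g
    simp only [mem_filter, mem_univ, true_and, and_iff_right_iff_imp]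
    intro e
    rw [e]
    exact hh
  have h2 : Fintype.card G =
      Fintype.card H * (univ.filter (fun g => f g = (0 : H))).card := by
    rw [← card_univ (α := G), card_eq_sum_card_fiberwise (f := f) (t := univ) (fun g _ => by simp)]
    rw [← card_univ (α := H), ← smul_eq_mul, ← sum_const]
    apply sum_congr rfl
    intro h _
    exact hc h
  rw [h1, h2]
  ring

theorem card_preM {G H : Type*} [Group G] [Group H] [Fintype G] [Fintype H] [DecidableEq H]
    (f : G →* H) (hf : Function.Surjective f) (X : Finset H) :
    (univ.filter (fun g => f g ∈ X)).card * Fintype.card H = X.card * Fintype.card G := by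
  have hc : ∀ h : H, (univ.filter (fun g => f g = h)).card =
      (univ.filter (fun g => f g = (1 : H))).card := fun h =>
    MonoidHom.card_fiber_eq_of_mem_range f (hf h) (hf 1)
  have h1 : (univ.filter (fun g => f g ∈ X)).card =
      X.card * (univ.filter (fun g => f g = (1 : H))).card := by
    rw [card_eq_sum_card_fiberwise (f := f) (t := X) (fun g hg => by simpa using hg)]
    rw [← smul_eq_mul, ← sum_const]
    apply sum_congr rfl
    intro h hh
    rw [← hc h, filter_filter]
    congr 1
    ext g
    simp only [mem_filter, mem_univ, true_and, and_iff_right_iff_imp]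
    intro e
    rw [e]
    exact hh
  have h2 : Fintype.card G =
      Fintype.card H * (univ.filter (fun g => f g = (1 : H))).card := by
    rw [← card_univ (α := G), card_eq_sum_card_fiberwise (f := f) (t := univ) (fun g _ => by simp)]
    rw [← card_univ (α := H), ← smul_eq_mul, ← sum_const]
    apply sum_congr rfl
    intro h _
    exact hc h
  rw [h1, h2]
  ring

open Classical in
/-- the set of units as a set of classes -/
theorem card_units {n : ℕ} [NeZero n] (X : Finset (ZMod n)) :
    (univ.filter (fun u : (ZMod n)ˣ => (u : ZMod n) ∈ X)).card =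
      (X.filter (fun a => IsUnit a)).card := by
  refine card_bij (fun u _ => (u : ZMod n)) ?_ ?_ ?_
  · intro u hu
    rw [mem_filter] at hu ⊢
    exact ⟨hu.2, u.isUnit⟩
  · intro u _ v _ h
    exact Units.ext h
  · intro a ha
    rw [mem_filter] at ha
    obtain ⟨h1, u, rfl⟩ := ha
    exact ⟨u, by simpa using h1, rfl⟩

open Classical in
theorem card_main {M N : ℕ} [NeZero M] [NeZero N] (h : M ∣ N) (pr : Bool) (B : Finset (ZMod M))
    (hB : ∀ b ∈ B, pr = true → IsUnit b) :
    ((univ.filter (fun a : ZMod N => pr = true → IsUnit a)).filter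
        (fun a => ZMod.castHom h (ZMod M) a ∈ B)).card *
      (univ.filter (fun a : ZMod M => pr = true → IsUnit a)).card =
    B.card * (univ.filter (fun a : ZMod N => pr = true → IsUnit a)).card := by
  cases pr with
  | false =>
    have h1 := card_pre (ZMod.castHom h (ZMod M)).toAddMonoidHom
      (ZMod.castHom_surjective h) B
    have e1 : (univ.filter (fun a : ZMod N => (false : Bool) = true → IsUnit a)) = univ := by
      ext a; simp
    have e2 : (univ.filter (fun a : ZMod M => (false : Bool) = true → IsUnit a)) = univ := by
      ext a; simp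
    rw [e1, e2, card_univ, card_univ]
    exact h1
  | true =>
    have hB' : ∀ b ∈ B, IsUnit b := fun b hb => hB b hb rfl
    have h1 := card_preM (ZMod.unitsMap h) (ZMod.unitsMap_surjective h)
      (univ.filter (fun u : (ZMod M)ˣ => (u : ZMod M) ∈ B))
    have e1 : (univ.filter (fun u : (ZMod M)ˣ => (u : ZMod M) ∈ B)).card = B.card := by
      rw [card_units]
      congr 1
      exact filter_true_of_mem hB'
    have e2 : (univ.filter (fun u : (ZMod N)ˣ => ZMod.unitsMap h u ∈
        univ.filter (fun u : (ZMod M)ˣ => (u : ZMod M) ∈ B))).card =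
        ((univ.filter (fun a : ZMod N => (true : Bool) = true → IsUnit a)).filter
        (fun a => ZMod.castHom h (ZMod M) a ∈ B)).card := by
      have h2 := card_units (n := N) (univ.filter (fun a => ZMod.castHom h (ZMod M) a ∈ B))
      have e3 : (univ.filter (fun u : (ZMod N)ˣ => ZMod.unitsMap h u ∈
          univ.filter (fun u : (ZMod M)ˣ => (u : ZMod M) ∈ B))) =
          (univ.filter (fun u : (ZMod N)ˣ => (u : ZMod N) ∈
            (univ.filter (fun a => ZMod.castHom h (ZMod M) a ∈ B)))) := by
        ext u
        simp only [mem_filter, mem_univ, true_and]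
        exact Iff.rfl
      rw [e3, h2]
      congr 1
      ext a
      simp only [mem_filter, mem_univ, true_and, forall_const]
      tauto
    have e4 : ∀ (n : ℕ) [NeZero n], Fintype.card (ZMod n)ˣ =
        (univ.filter (fun a : ZMod n => (true : Bool) = true → IsUnit a)).card := by
      intro n _
      have h2 := card_units (n := n) univ
      simp only [mem_univ, filter_true] at h2
      rw [card_univ] at h2
      rw [h2]
      congr 1
      ext a
      simp
    rw [e1, e2, e4, e4] at h1
    exact h1

theorem Wp_dvd {w w' : ℕ} (h : w ≤ w') : Wp w ∣ Wp w' := by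
  unfold Wp
  apply Finset.prod_dvd_prod_of_subset
  unfold pz
  exact filter_subset_filter _ (Icc_subset_Icc_right h)

open Classical in
theorem stLift_in (pr : Bool) (m : ℕ) : StLift pr m := by
  intro w w' hw B hB
  have hd := Wp_dvd hw
  have hB1 : ∀ b ∈ B, pr = true → IsUnit b := by
    intro b hb
    have := hB hb
    unfold AA at this
    rw [mem_filter] at this
    exact this.2
  refine ⟨(AA pr w').filter (fun a => ZMod.castHom hd (ZMod (Wp w)) a ∈ B), filter_subset _ _,
    ?_, ?_⟩
  · have h1 := card_main hd pr B hB1
    have p1 : 0 < (AA pr w').card := by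
      apply card_pos.2
      refine ⟨1, ?_⟩
      unfold AA
      rw [mem_filter]
      exact ⟨mem_univ _, fun _ => isUnit_one⟩
    have p2 : 0 < (AA pr w).card := by
      apply card_pos.2
      refine ⟨1, ?_⟩
      unfold AA
      rw [mem_filter]
      exact ⟨mem_univ _, fun _ => isUnit_one⟩
    have h2 : ((AA pr w').filter (fun a => ZMod.castHom hd (ZMod (Wp w)) a ∈ B)).card *
        (AA pr w).card = B.card * (AA pr w').card := h1
    rw [div_eq_div_iff (by exact_mod_cast p1.ne') (by exact_mod_cast p2.ne')]
    exact_mod_cast h2
  · let ψ : (Fin m → ZMod (Wp w')) →+ (Fin m → ZMod (Wp w)) :=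
      { toFun := fun t j => ZMod.castHom hd (ZMod (Wp w)) (t j)
        map_zero' := funext fun j => map_zero _
        map_add' := fun s t => funext fun j => map_add _ _ _ }
    have hψ : Function.Surjective ψ := by
      intro s
      choose t ht using fun j => ZMod.castHom_surjective hd (s j)
      exact ⟨t, funext ht⟩
    have h1 := card_pre ψ hψ (sumk m w B)
    have h2 : sumk m w' ((AA pr w').filter (fun a => ZMod.castHom hd (ZMod (Wp w)) a ∈ B)) ⊆
        univ.filter (fun t => ψ t ∈ sumk m w B) := by
      intro t ht
      unfold sumk at ht ⊢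
      rw [mem_filter] at ht
      obtain ⟨-, a, ha, hg⟩ := ht
      rw [mem_filter] at ha
      simp only [mem_filter, mem_univ, true_and]
      refine ⟨ZMod.castHom hd (ZMod (Wp w)) a, ha.2, ?_⟩
      intro j
      have := (hg j).map (ZMod.castHom hd (ZMod (Wp w)))
      rw [map_add] at this
      exact this
    have h3 := card_le_card h2
    have e1 : Fintype.card (Fin m → ZMod (Wp w)) = Wp w ^ m := by simp
    have e2 : Fintype.card (Fin m → ZMod (Wp w')) = Wp w' ^ m := by simp
    rw [e1, e2] at h1
    have p1 : (0 : ℝ) < (Wp w' : ℝ) ^ m := by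
      have := Wp_pos w'
      positivity
    have p2 : (0 : ℝ) < (Wp w : ℝ) ^ m := by
      have := Wp_pos w
      positivity
    rw [div_le_div_iff₀ p1 p2]
    have h4 := Nat.mul_le_mul_right (Wp w ^ m) h3
    rw [h1] at h4
    exact_mod_cast h4

end Pool.Agent.TH381.J4392
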