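import Mathlib

/-!
Similar copies of lattice patterns in three-dimensional space.
We use the rotations given by integer quaternions.
-/

namespace Pool.Agent.TH381.Tetra

open Finset Module

/-- Euclidean three-space. -/
abbrev E3 := EuclideanSpace ℝ (Fin 3)

/-- A similarity of Euclidean three-space: an isometry of the space onto itself
followed by the scaling with a positive factor `r`. -/
def IsSimilarity (g : E3 → E3) : Prop :=
  ∃ (r : ℝ) (φ : E3 ≃ᵢ E3), 0 < r ∧ ∀ x, g x = r • φ x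

/-- `U` is the image of `A` under some similarity. -/
def SimilarTo (A U : Finset E3) : Prop :=
  ∃ g : E3 → E3, IsSimilarity g ∧ (U : Set E3) = g '' (A : Set E3)

/-- A tetrahedron: a set of four points which does not lie in a plane. -/
def IsTetrahedron (T : Finset E3) : Prop := T.card = 4 ∧ ¬ Coplanar ℝ (T : Set E3)

/-- The number of subsets of `P` that are similar to `A`. -/
noncomputable def copies (P A : Finset E3) : ℕ :=
  Set.ncard {U : Finset E3 | U ⊆ P ∧ SimilarTo A U}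

/-- The number of four-element subsets of `P` that are tetrahedra similar to `T`. -/
noncomputable def s (P T : Finset E3) : ℕ :=
  Set.ncard {U : Finset E3 | U ⊆ P ∧ U.card = 4 ∧ IsTetrahedron U ∧ SimilarTo T U}

/-- The largest value of `s P T` over all `n`-point sets `P` and all tetrahedra `T`. -/
noncomputable def f (n : ℕ) : ℕ :=
  sSup {k | ∃ P T : Finset E3, P.card = n ∧ IsTetrahedron T ∧ k = s P T}

/-- The point of three-space with the given integer coordinates. -/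
noncomputable def zpt (v : Fin 3 → ℤ) : E3 := WithLp.toLp 2 (fun i => (v i : ℝ))

theorem zpt_injective : Function.Injective zpt := by
  intro v w h
  funext i
  have := congrArg (fun x : E3 => x i) h
  simpa [zpt] using this

/-- The embedding of integer points. -/
noncomputable def zemb : (Fin 3 → ℤ) ↪ E3 := ⟨zpt, zpt_injective⟩

@[simp] theorem zemb_apply (v : Fin 3 → ℤ) : zemb v = zpt v := rfl

/-- The integer matrix of the map `x ↦ q x q̄` on pure quaternions. -/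
def rot (q : Fin 4 → ℤ) : Matrix (Fin 3) (Fin 3) ℤ :=
  !![q 0 ^ 2 + q 1 ^ 2 - q 2 ^ 2 - q 3 ^ 2, 2 * (q 1 * q 2 - q 0 * q 3), 2 * (q 1 * q 3 + q 0 * q 2);
     2 * (q 1 * q 2 + q 0 * q 3), q 0 ^ 2 - q 1 ^ 2 + q 2 ^ 2 - q 3 ^ 2, 2 * (q 2 * q 3 - q 0 * q 1);
     2 * (q 1 * q 3 - q 0 * q 2), 2 * (q 2 * q 3 + q 0 * q 1), q 0 ^ 2 - q 1 ^ 2 - q 2 ^ 2 + q 3 ^ 2]

/-- The norm of the quaternion. -/
def nrm (q : Fin 4 → ℤ) : ℤ := q 0 ^ 2 + q 1 ^ 2 + q 2 ^ 2 + q 3 ^ 2

/-- The affine map on integer points. -/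
def act (p : Fin 3 → ℤ) (q : Fin 4 → ℤ) (v : Fin 3 → ℤ) : Fin 3 → ℤ :=
  fun i => p i + ∑ j, rot q i j * v j

/-- The real linear map. -/
noncomputable def lin (q : Fin 4 → ℤ) : E3 →ₗ[ℝ] E3 where
  toFun x := WithLp.toLp 2 (fun i => ∑ j, (rot q i j : ℝ) * x j)
  map_add' x y := by
    ext i
    simp [mul_add, Finset.sum_add_distrib]
  map_smul' c x := by
    ext i
    simp only [PiLp.smul_apply, smul_eq_mul, RingHom.id_apply, Finset.mul_sum]
    refine Finset.sum_congr rfl fun j _ => ?_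
    ring

theorem lin_apply (q : Fin 4 → ℤ) (x : E3) (i : Fin 3) :
    lin q x i = ∑ j, (rot q i j : ℝ) * x j := rfl

theorem lin_norm (q : Fin 4 → ℤ) (x : E3) : ‖lin q x‖ = (nrm q : ℝ) * ‖x‖ := by
  have hN : (0 : ℝ) ≤ (nrm q : ℝ) := by
    have : 0 ≤ nrm q := by unfold nrm; positivity
    exact_mod_cast this
  have h : ‖lin q x‖ ^ 2 = ((nrm q : ℝ) * ‖x‖) ^ 2 := by
    rw [mul_pow, EuclideanSpace.norm_sq_eq, EuclideanSpace.norm_sq_eq]
    simp only [Real.norm_eq_abs, sq_abs, Fin.sum_univ_three, lin_apply]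
    simp only [rot, nrm, Matrix.of_apply, Matrix.cons_val', Matrix.cons_val_zero,
      Matrix.cons_val_one, Matrix.cons_val, Matrix.cons_val_fin_one]
    push_cast
    ring
  have h1 : 0 ≤ ‖lin q x‖ := norm_nonneg _
  have h2 : 0 ≤ (nrm q : ℝ) * ‖x‖ := mul_nonneg hN (norm_nonneg _)
  exact (sq_eq_sq₀ h1 h2).mp h

theorem exists_similarity (p : Fin 3 → ℤ) (q : Fin 4 → ℤ) (hq : 0 < nrm q) :
    ∃ g : E3 → E3, IsSimilarity g ∧ ∀ v, g (zpt v) = zpt (act p q v) := by
  have hN : (0 : ℝ) < (nrm q : ℝ) := by exact_mod_cast hq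
  let L' : E3 →ₗᵢ[ℝ] E3 :=
    { toLinearMap := (nrm q : ℝ)⁻¹ • lin q
      norm_map' := by
        intro x
        rw [LinearMap.smul_apply, norm_smul, lin_norm, Real.norm_eq_abs, abs_of_pos (inv_pos.mpr hN),
          ← mul_assoc, inv_mul_cancel₀ hN.ne', one_mul] }
  let φ : E3 ≃ᵢ E3 := (L'.toLinearIsometryEquiv rfl).toIsometryEquiv.trans
    (IsometryEquiv.addRight ((nrm q : ℝ)⁻¹ • zpt p))
  refine ⟨fun x => (nrm q : ℝ) • φ x, ⟨(nrm q : ℝ), φ, hN, fun x => rfl⟩, ?_⟩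
  intro v
  have h1 : φ (zpt v) = (nrm q : ℝ)⁻¹ • lin q (zpt v) + (nrm q : ℝ)⁻¹ • zpt p := rfl
  show (nrm q : ℝ) • φ (zpt v) = _
  rw [h1, smul_add, smul_smul, smul_smul, mul_inv_cancel₀ hN.ne', one_smul, one_smul]
  ext i
  simp only [PiLp.add_apply, lin_apply, zpt, act]
  push_cast
  ring

/-- A functional constant on a non-coplanar set vanishes. -/
theorem functional_eq_zero {S : Set E3} (hS : ¬ Coplanar ℝ S) (l : E3 →ₗ[ℝ] ℝ) (t : ℝ)
    (h : ∀ x ∈ S, l x = t) : l = 0 := by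
  by_contra hl
  apply hS
  have h1 : vectorSpan ℝ S ≤ LinearMap.ker l := by
    rw [vectorSpan_def, Submodule.span_le]
    rintro _ ⟨x, hx, y, hy, rfl⟩
    simp [LinearMap.mem_ker, h x hx, h y hy]
  have h2 : finrank ℝ (LinearMap.ker l) = 2 := by
    have h3 := LinearMap.finrank_range_add_finrank_ker l
    have h4 : LinearMap.range l = ⊤ := LinearMap.range_eq_top.mpr (LinearMap.surjective hl)
    rw [h4, finrank_top, finrank_self] at h3
    have h5 : finrank ℝ E3 = 3 := by simp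
    omega
  rw [coplanar_iff_finrank_le_two]
  calc finrank ℝ (vectorSpan ℝ S) ≤ finrank ℝ (LinearMap.ker l) := Submodule.finrank_mono h1
    _ ≤ 2 := h2.le

theorem rot_injective {q q' : Fin 4 → ℤ} (h0 : 0 < q 0) (h0' : 0 < q' 0)
    (h : rot q = rot q') : q = q' := by
  have e00 := congrFun (congrFun h 0) 0
  have e01 := congrFun (congrFun h 0) 1
  have e02 := congrFun (congrFun h 0) 2
  have e10 := congrFun (congrFun h 1) 0
  have e11 := congrFun (congrFun h 1) 1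
  have e12 := congrFun (congrFun h 1) 2
  have e20 := congrFun (congrFun h 2) 0
  have e21 := congrFun (congrFun h 2) 1
  have e22 := congrFun (congrFun h 2) 2
  simp only [rot, Matrix.of_apply, Matrix.cons_val', Matrix.cons_val_zero,
      Matrix.cons_val_one, Matrix.cons_val, Matrix.cons_val_fin_one] at e00 e01 e02 e10 e11 e12 e20 e21 e22
  have hN : nrm q = nrm q' := by
    have h1 : 0 ≤ nrm q := by unfold nrm; positivity
    have h2 : 0 ≤ nrm q' := by unfold nrm; positivity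
    have h3 : nrm q ^ 2 = nrm q' ^ 2 := by
      have i1 : nrm q ^ 2 = (q 0 ^ 2 + q 1 ^ 2 - q 2 ^ 2 - q 3 ^ 2) ^ 2
        + (2 * (q 1 * q 2 + q 0 * q 3)) ^ 2 + (2 * (q 1 * q 3 - q 0 * q 2)) ^ 2 := by
        unfold nrm; ring
      have i2 : nrm q' ^ 2 = (q' 0 ^ 2 + q' 1 ^ 2 - q' 2 ^ 2 - q' 3 ^ 2) ^ 2
        + (2 * (q' 1 * q' 2 + q' 0 * q' 3)) ^ 2 + (2 * (q' 1 * q' 3 - q' 0 * q' 2)) ^ 2 := by
        unfold nrm; ring
      rw [i1, i2, e00, e10, e20]
    exact (sq_eq_sq₀ h1 h2).mp h3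
  have ha : q 0 = q' 0 := by
    have h1 : q 0 ^ 2 = q' 0 ^ 2 := by
      unfold nrm at hN
      linarith
    exact (sq_eq_sq₀ h0.le h0'.le).mp h1
  have hb : q 0 * q 1 = q 0 * q' 1 := by
    have : q 0 * q 1 = q' 0 * q' 1 := by linarith
    rw [this, ha]
  have hc : q 0 * q 2 = q 0 * q' 2 := by
    have : q 0 * q 2 = q' 0 * q' 2 := by linarith
    rw [this, ha]
  have hd : q 0 * q 3 = q 0 * q' 3 := by
    have : q 0 * q 3 = q' 0 * q' 3 := by linarith
    rw [this, ha]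
  have hb' := mul_left_cancel₀ h0.ne' hb
  have hc' := mul_left_cancel₀ h0.ne' hc
  have hd' := mul_left_cancel₀ h0.ne' hd
  funext i
  fin_cases i
  · exact ha
  · exact hb'
  · exact hc'
  · exact hd'

/-- The labelled copies determine the similarity. -/
theorem act_injective {A : Finset (Fin 3 → ℤ)}
    (hA : ¬ Coplanar ℝ ((A.map zemb : Finset E3) : Set E3))
    {p p' : Fin 3 → ℤ} {q q' : Fin 4 → ℤ} (h0 : 0 < q 0) (h0' : 0 < q' 0)
    (h : ∀ v ∈ A, act p q v = act p' q' v) : p = p' ∧ q = q' := by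
  have hne : A.Nonempty := by
    by_contra hcon
    rw [Finset.not_nonempty_iff_eq_empty] at hcon
    apply hA
    rw [hcon]
    simpa using coplanar_empty ℝ E3
  have hR : rot q = rot q' := by
    ext i j
    let l : E3 →ₗ[ℝ] ℝ :=
      (EuclideanSpace.proj i : E3 →L[ℝ] ℝ).toLinearMap ∘ₗ (lin q - lin q')
    have hl : l = 0 := by
      apply functional_eq_zero hA l ((p' i : ℝ) - (p i : ℝ))
      intro x hx
      rw [Finset.coe_map] at hx
      obtain ⟨v, hv, rfl⟩ := hx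
      have h1 := congrFun (h v hv) i
      have h2 : ((act p q v i : ℤ) : ℝ) = ((act p' q' v i : ℤ) : ℝ) := by rw [h1]
      simp only [act] at h2
      push_cast at h2
      show lin q (zpt v) i - lin q' (zpt v) i = _
      simp only [lin_apply, zpt]
      linarith
    have h3 : l (EuclideanSpace.single j 1) = 0 := by rw [hl]; rfl
    have h4 : lin q (EuclideanSpace.single j 1) i - lin q' (EuclideanSpace.single j 1) i = 0 := h3
    simp only [lin_apply, PiLp.single_apply, mul_ite, mul_one, mul_zero,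
      Finset.sum_ite_eq', Finset.mem_univ, if_true] at h4
    have h5 : ((rot q i j : ℤ) : ℝ) = ((rot q' i j : ℤ) : ℝ) := by linarith
    exact_mod_cast h5
  have hq := rot_injective h0 h0' hR
  refine ⟨?_, hq⟩
  obtain ⟨v, hv⟩ := hne
  funext i
  have h1 := congrFun (h v hv) i
  simp only [act, hR] at h1
  linarith


theorem rot_bound {q : Fin 4 → ℤ} {K : ℤ} (h : ∀ i, 1 ≤ q i ∧ q i ≤ K) (i j : Fin 3) :
    |rot q i j| ≤ 4 * K ^ 2 := by
  have hp : ∀ i j : Fin 4, 0 ≤ q i * q j ∧ q i * q j ≤ K ^ 2 := by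
    intro i j
    have h1 := h i
    have h2 := h j
    constructor
    · nlinarith
    · nlinarith
  have hK : 0 ≤ K ^ 2 := sq_nonneg K
  have s0 := hp 0 0
  have s1 := hp 1 1
  have s2 := hp 2 2
  have s3 := hp 3 3
  have s01 := hp 0 1
  have s02 := hp 0 2
  have s03 := hp 0 3
  have s12 := hp 1 2
  have s13 := hp 1 3
  have s23 := hp 2 3
  rw [abs_le]
  fin_cases i <;> fin_cases j <;>
    simp only [rot, Matrix.of_apply, Matrix.cons_val', Matrix.cons_val_zero,
      Matrix.cons_val_one, Matrix.cons_val, Matrix.cons_val_fin_one, Fin.zero_eta, Fin.mk_one,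
      Fin.reduceFinMk] <;>
    constructor <;> nlinarith

theorem sum_bound {q : Fin 4 → ℤ} {K B : ℤ} (h : ∀ i, 1 ≤ q i ∧ q i ≤ K)
    {v : Fin 3 → ℤ} (hv : ∀ i, |v i| ≤ B) (i : Fin 3) :
    |∑ j, rot q i j * v j| ≤ 12 * B * K ^ 2 := by
  have hB : 0 ≤ B := (abs_nonneg _).trans (hv 0)
  calc |∑ j, rot q i j * v j| ≤ ∑ j, |rot q i j * v j| := Finset.abs_sum_le_sum_abs _ _
    _ ≤ ∑ _j : Fin 3, 4 * K ^ 2 * B := by
        refine Finset.sum_le_sum fun j _ => ?_
        rw [abs_mul]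
        exact mul_le_mul (rot_bound h i j) (hv j) (abs_nonneg _) (by positivity)
    _ = 12 * B * K ^ 2 := by
        simp [Finset.sum_const]
        ring

theorem nrm_pos {q : Fin 4 → ℤ} (h : 0 < q 0) : 0 < nrm q := by
  unfold nrm
  positivity

theorem count_lower (A : Finset (Fin 3 → ℤ))
    (hA : ¬ Coplanar ℝ ((A.map zemb : Finset E3) : Set E3)) (B : ℕ)
    (hAB : ∀ v ∈ A, ∀ i, |v i| ≤ (B : ℤ)) (K n : ℕ) (hn : (36 * B * K ^ 2) ^ 3 ≤ n) :
    ∃ P : Finset (Fin 3 → ℤ), P.card = n ∧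
      (12 * B * K ^ 2) ^ 3 * K ^ 4 ≤
        A.card ^ A.card * copies (P.map zemb) (A.map zemb) := by
  classical
  set L : ℕ := 12 * B * K ^ 2 with hL
  let I1 : Finset (Fin 3 → ℤ) := Fintype.piFinset fun _ : Fin 3 => Finset.Ico (L : ℤ) (2 * L)
  let I2 : Finset (Fin 4 → ℤ) := Fintype.piFinset fun _ : Fin 4 => Finset.Icc (1 : ℤ) K
  let G : Finset (Fin 3 → ℤ) := Fintype.piFinset fun _ : Fin 3 => Finset.Ico (0 : ℤ) (3 * L)
  have hI1 : I1.card = L ^ 3 := by
    simp only [I1, Fintype.card_piFinset, Int.card_Ico, Finset.prod_const, Finset.card_univ,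
      Fintype.card_fin]
    congr 1
    omega
  have hI2 : I2.card = K ^ 4 := by
    simp only [I2, Fintype.card_piFinset, Int.card_Icc, Finset.prod_const, Finset.card_univ,
      Fintype.card_fin]
    congr 1
    omega
  have hG : G.card = (3 * L) ^ 3 := by
    simp only [G, Fintype.card_piFinset, Int.card_Ico, Finset.prod_const, Finset.card_univ,
      Fintype.card_fin]
    congr 1
  have hGn : G.card ≤ n := by
    rw [hG]
    calc (3 * L) ^ 3 = (36 * B * K ^ 2) ^ 3 := by rw [hL]; ring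
      _ ≤ n := hn
  obtain ⟨P, hGP, hPn⟩ := Infinite.exists_superset_card_eq G n hGn
  refine ⟨P, hPn, ?_⟩
  let F : (Fin 3 → ℤ) × (Fin 4 → ℤ) → Finset E3 := fun x => (A.image (act x.1 x.2)).map zemb
  have hmem2 : ∀ x ∈ I1 ×ˢ I2, ∀ i, 1 ≤ x.2 i ∧ x.2 i ≤ (K : ℤ) := by
    intro x hx i
    rw [Finset.mem_product] at hx
    have := (Fintype.mem_piFinset.mp hx.2) i
    rw [Finset.mem_Icc] at this
    exact this
  have hmem1 : ∀ x ∈ I1 ×ˢ I2, ∀ i, (L : ℤ) ≤ x.1 i ∧ x.1 i < 2 * L := by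
    intro x hx i
    rw [Finset.mem_product] at hx
    have := (Fintype.mem_piFinset.mp hx.1) i
    rw [Finset.mem_Ico] at this
    exact this
  have hfib : ∀ U ∈ (I1 ×ˢ I2).image F, #{x ∈ I1 ×ˢ I2 | F x = U} ≤ A.card ^ A.card := by
    intro U hU
    rw [Finset.mem_image] at hU
    obtain ⟨x0, hx0, rfl⟩ := hU
    let U0 := A.image (act x0.1 x0.2)
    have hU0 : U0.card ≤ A.card := Finset.card_image_le
    let Φ : (Fin 3 → ℤ) × (Fin 4 → ℤ) → (A → (Fin 3 → ℤ)) := fun x v => act x.1 x.2 v.1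
    have h1 : #{x ∈ I1 ×ˢ I2 | F x = F x0} ≤ #(Fintype.piFinset fun _ : A => U0) := by
      apply Finset.card_le_card_of_injOn Φ
      · intro x hx
        rw [Finset.mem_coe, Finset.mem_filter] at hx
        have h2 : A.image (act x.1 x.2) = U0 := Finset.map_injective zemb hx.2
        rw [Finset.mem_coe, Fintype.mem_piFinset]
        intro v
        rw [← h2]
        exact Finset.mem_image_of_mem _ v.2
      · intro x hx y hy hxy
        rw [Finset.mem_coe, Finset.mem_filter] at hx hy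
        have h3 := act_injective hA (q := x.2) (q' := y.2) (p := x.1) (p' := y.1)
          (by have := (hmem2 x hx.1 0).1; omega) (by have := (hmem2 y hy.1 0).1; omega)
          (fun v hv => congrFun hxy ⟨v, hv⟩)
        exact Prod.ext h3.1 h3.2
    calc #{x ∈ I1 ×ˢ I2 | F x = F x0} ≤ #(Fintype.piFinset fun _ : A => U0) := h1
      _ = U0.card ^ A.card := by
        simp [Fintype.card_piFinset]
      _ ≤ A.card ^ A.card := Nat.pow_le_pow_left hU0 _
  have hcard := Finset.card_le_mul_card_image (I1 ×ˢ I2) (A.card ^ A.card) hfib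
  have hsub : (((I1 ×ˢ I2).image F : Finset (Finset E3)) : Set (Finset E3)) ⊆
      {U : Finset E3 | U ⊆ P.map zemb ∧ SimilarTo (A.map zemb) U} := by
    intro U hU
    rw [Finset.mem_coe, Finset.mem_image] at hU
    obtain ⟨x, hx, rfl⟩ := hU
    have hx2 := hmem2 x hx
    have hx1 := hmem1 x hx
    constructor
    · apply Finset.map_subset_map.mpr
      refine Finset.Subset.trans ?_ hGP
      intro w hw
      rw [Finset.mem_image] at hw
      obtain ⟨v, hv, rfl⟩ := hw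
      rw [Fintype.mem_piFinset]
      intro i
      have h3 := sum_bound hx2 (hAB v hv) i
      rw [abs_le] at h3
      have h4 := hx1 i
      have h5 : ((L : ℕ) : ℤ) = 12 * (B : ℤ) * (K : ℤ) ^ 2 := by rw [hL]; push_cast; ring
      rw [← h5] at h3
      rw [Finset.mem_Ico]
      simp only [act]
      constructor
      · linarith [h3.1, h4.1]
      · linarith [h3.2, h4.2]
    · obtain ⟨g, hg, hgv⟩ := exists_similarity x.1 x.2 (nrm_pos (by have := (hx2 0).1; omega))
      refine ⟨g, hg, ?_⟩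
      ext y
      simp only [F, Finset.coe_map, Finset.coe_image, Set.mem_image, zemb_apply, Finset.mem_coe]
      constructor
      · rintro ⟨w, ⟨v, hv, rfl⟩, rfl⟩
        exact ⟨zpt v, ⟨v, hv, rfl⟩, hgv v⟩
      · rintro ⟨z, ⟨v, hv, rfl⟩, rfl⟩
        exact ⟨act x.1 x.2 v, ⟨v, hv, rfl⟩, (hgv v).symm⟩
  have hfin : {U : Finset E3 | U ⊆ P.map zemb ∧ SimilarTo (A.map zemb) U}.Finite := by
    apply Set.Finite.subset (Finset.finite_toSet (P.map zemb).powerset)
    intro U hU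
    rw [Finset.mem_coe, Finset.mem_powerset]
    exact hU.1
  have hle : ((I1 ×ˢ I2).image F).card ≤ copies (P.map zemb) (A.map zemb) := by
    unfold copies
    rw [← Set.ncard_coe_finset]
    exact Set.ncard_le_ncard hsub hfin
  calc L ^ 3 * K ^ 4 = (I1 ×ˢ I2).card := by rw [Finset.card_product, hI1, hI2]
    _ ≤ A.card ^ A.card * ((I1 ×ˢ I2).image F).card := hcard
    _ ≤ _ := Nat.mul_le_mul_left _ hle

theorem exists_bound (A : Finset (Fin 3 → ℤ)) :
    ∃ B : ℕ, 1 ≤ B ∧ ∀ v ∈ A, ∀ i, |v i| ≤ (B : ℤ) := by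
  classical
  refine ⟨(A.sup fun v => ∑ i, (v i).natAbs) + 1, by omega, ?_⟩
  intro v hv i
  have h1 : (∑ i, (v i).natAbs) ≤ A.sup fun v => ∑ i, (v i).natAbs :=
    Finset.le_sup (f := fun v : Fin 3 → ℤ => ∑ i, (v i).natAbs) hv
  have h2 : (v i).natAbs ≤ ∑ i, (v i).natAbs :=
    Finset.single_le_sum (f := fun i => (v i).natAbs) (fun _ _ => Nat.zero_le _)
      (Finset.mem_univ i)
  have h3 : |v i| = ((v i).natAbs : ℤ) := Int.abs_eq_natAbs _
  rw [h3]
  push_cast
  have h4 : (v i).natAbs ≤ (A.sup fun v => ∑ i, (v i).natAbs) := h2.trans h1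
  have h5 : ((v i).natAbs : ℤ) ≤ ((A.sup fun v => ∑ i, (v i).natAbs : ℕ) : ℤ) := by
    exact_mod_cast h4
  push_cast at h5
  linarith

theorem lattice_copies (A : Finset (Fin 3 → ℤ))
    (hA : ¬ Coplanar ℝ ((A.map zemb : Finset E3) : Set E3)) :
    ∃ c : ℝ, 0 < c ∧ ∃ n₀ : ℕ, ∀ n : ℕ, n₀ ≤ n →
      ∃ P : Finset (Fin 3 → ℤ), P.card = n ∧
        c * (n : ℝ) ^ (5 / 3 : ℝ) ≤ (copies (P.map zemb) (A.map zemb) : ℝ) := by
  obtain ⟨B, hB1, hB⟩ := exists_bound A
  have hne : A.Nonempty := by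
    by_contra hcon
    rw [Finset.not_nonempty_iff_eq_empty] at hcon
    apply hA
    rw [hcon]
    simpa using coplanar_empty ℝ E3
  have hk : (0 : ℝ) < (A.card : ℝ) ^ A.card := by
    have : 0 < A.card := Finset.card_pos.mpr hne
    positivity
  have hBr : (1 : ℝ) ≤ (B : ℝ) := by exact_mod_cast hB1
  have hB0 : (0 : ℝ) < (B : ℝ) := by linarith
  refine ⟨1 / ((12 * (B : ℝ)) ^ 7 * (A.card : ℝ) ^ A.card),
    div_pos one_pos (mul_pos (by positivity) hk), (6 * B) ^ 6, ?_⟩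
  intro n hn
  set x : ℝ := (n : ℝ) ^ (1 / 6 : ℝ) with hx
  have hx0 : 0 ≤ x := Real.rpow_nonneg (Nat.cast_nonneg n) _
  have hx6 : x ^ 6 = (n : ℝ) := by
    rw [hx, ← Real.rpow_natCast, ← Real.rpow_mul (Nat.cast_nonneg n)]
    norm_num
  have hx10 : x ^ 10 = (n : ℝ) ^ (5 / 3 : ℝ) := by
    rw [hx, ← Real.rpow_natCast, ← Real.rpow_mul (Nat.cast_nonneg n)]
    norm_num
  have hxB : 6 * (B : ℝ) ≤ x := by
    by_contra hcon
    push Not at hcon
    have h1 : x ^ 6 < (6 * (B : ℝ)) ^ 6 := pow_lt_pow_left₀ hcon hx0 (by norm_num)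
    rw [hx6] at h1
    have h2 : (((6 * B) ^ 6 : ℕ) : ℝ) ≤ (n : ℝ) := by exact_mod_cast hn
    push_cast at h2
    linarith
  set y : ℝ := x / (6 * (B : ℝ)) with hy
  have hy1 : 1 ≤ y := by
    rw [hy, le_div_iff₀ (by positivity)]
    linarith
  set K : ℕ := ⌊y⌋₊ with hK
  have hKle : (K : ℝ) ≤ y := Nat.floor_le (by linarith)
  have hKge : y / 2 ≤ (K : ℝ) := by
    have h1 : y < K + 1 := Nat.lt_floor_add_one y
    have h2 : (1 : ℝ) ≤ (K : ℝ) := by
      have : 1 ≤ K := by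
        rw [hK]
        exact Nat.le_floor (by simpa using hy1)
      exact_mod_cast this
    linarith
  have hxy : x = 6 * (B : ℝ) * y := by
    rw [hy]
    field_simp
  have hKn : (36 * B * K ^ 2) ^ 3 ≤ n := by
    have h1 : ((36 * (B : ℝ) * (K : ℝ) ^ 2) ^ 3 : ℝ) ≤ (n : ℝ) := by
      rw [← hx6]
      have h2 : (36 * (B : ℝ) * (K : ℝ) ^ 2) ≤ x ^ 2 := by
        rw [hxy]
        have h3 : (K : ℝ) ^ 2 ≤ y ^ 2 := pow_le_pow_left₀ (Nat.cast_nonneg K) hKle 2
        calc 36 * (B : ℝ) * (K : ℝ) ^ 2 ≤ 36 * (B : ℝ) * y ^ 2 := by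
              apply mul_le_mul_of_nonneg_left h3; positivity
          _ = (B : ℝ) * (36 * y ^ 2) := by ring
          _ ≤ (B : ℝ) * ((B : ℝ) * (36 * y ^ 2)) := by
              apply mul_le_mul_of_nonneg_left _ hB0.le
              have : (0 : ℝ) ≤ 36 * y ^ 2 := by positivity
              nlinarith
          _ = (6 * (B : ℝ) * y) ^ 2 := by ring
      calc (36 * (B : ℝ) * (K : ℝ) ^ 2) ^ 3 ≤ (x ^ 2) ^ 3 :=
            pow_le_pow_left₀ (by positivity) h2 3
        _ = x ^ 6 := by ring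
    exact_mod_cast h1
  obtain ⟨P, hPn, hP⟩ := count_lower A hA B hB K n hKn
  refine ⟨P, hPn, ?_⟩
  have hPr : (12 * (B : ℝ) * (K : ℝ) ^ 2) ^ 3 * (K : ℝ) ^ 4 ≤
      (A.card : ℝ) ^ A.card * (copies (P.map zemb) (A.map zemb) : ℝ) := by
    exact_mod_cast hP
  have hlow : x ^ 10 / (12 * (B : ℝ)) ^ 7 ≤ (12 * (B : ℝ) * (K : ℝ) ^ 2) ^ 3 * (K : ℝ) ^ 4 := by
    have h1 : (y / 2) ^ 10 ≤ (K : ℝ) ^ 10 := pow_le_pow_left₀ (by linarith) hKge 10
    have h2 : x = (12 * (B : ℝ)) * (y / 2) := by rw [hxy]; ring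
    calc x ^ 10 / (12 * (B : ℝ)) ^ 7 = (12 * (B : ℝ)) ^ 3 * (y / 2) ^ 10 := by
          rw [h2]
          field_simp
      _ ≤ (12 * (B : ℝ)) ^ 3 * (K : ℝ) ^ 10 := by
          apply mul_le_mul_of_nonneg_left h1; positivity
      _ = _ := by ring
  have hD : (0 : ℝ) < (12 * (B : ℝ)) ^ 7 * (A.card : ℝ) ^ A.card := mul_pos (by positivity) hk
  rw [← hx10, div_mul_eq_mul_div, one_mul, div_le_iff₀ hD]
  have h3 : x ^ 10 ≤ (12 * (B : ℝ)) ^ 7 *
      ((12 * (B : ℝ) * (K : ℝ) ^ 2) ^ 3 * (K : ℝ) ^ 4) := by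
    have := (div_le_iff₀ (by positivity)).mp hlow
    linarith
  calc x ^ 10 ≤ (12 * (B : ℝ)) ^ 7 *
      ((12 * (B : ℝ) * (K : ℝ) ^ 2) ^ 3 * (K : ℝ) ^ 4) := h3
    _ ≤ (12 * (B : ℝ)) ^ 7 * ((A.card : ℝ) ^ A.card *
        (copies (P.map zemb) (A.map zemb) : ℝ)) := by
        apply mul_le_mul_of_nonneg_left hPr; positivity
    _ = _ := by ring

/-! ### From copies to tetrahedra -/

theorem similarity_injective {g : E3 → E3} (hg : IsSimilarity g) : Function.Injective g := by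
  obtain ⟨r, φ, hr, h⟩ := hg
  intro x y hxy
  rw [h, h] at hxy
  exact φ.injective (smul_right_injective E3 hr.ne' hxy)

theorem coplanar_of_similar {A U : Finset E3} (h : SimilarTo A U)
    (hU : Coplanar ℝ (U : Set E3)) : Coplanar ℝ (A : Set E3) := by
  obtain ⟨g, ⟨r, φ, hr, hg⟩, hUg⟩ := h
  let ψ : E3 ≃ᵃⁱ[ℝ] E3 := φ.toRealAffineIsometryEquiv
  have hψ : ∀ x, ψ x = φ x := fun x => by
    simp [ψ]
  let m : E3 →ᵃ[ℝ] E3 := r • ψ.toAffineEquiv.toAffineMap
  have hm : ∀ x, m x = g x := by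
    intro x
    rw [hg, ← hψ]
    rfl
  have hUm : (U : Set E3) = m '' (A : Set E3) := by
    rw [hUg]
    exact Set.image_congr (fun x _ => (hm x).symm)
  have h1 : vectorSpan ℝ (U : Set E3) = Submodule.map m.linear (vectorSpan ℝ (A : Set E3)) := by
    rw [hUm, ← AffineMap.map_vectorSpan]
  have hminj : Function.Injective m.linear := by
    rw [AffineMap.linear_injective_iff]
    intro x y hxy
    rw [hm, hm] at hxy
    exact similarity_injective ⟨r, φ, hr, hg⟩ hxy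
  unfold Coplanar at hU ⊢
  rw [h1] at hU
  have h2 := (Submodule.equivMapOfInjective m.linear hminj
    (vectorSpan ℝ (A : Set E3))).rank_eq
  rw [h2]
  exact hU

theorem tetra_of_similar {T U : Finset E3} (hT : IsTetrahedron T) (h : SimilarTo T U) :
    IsTetrahedron U := by
  classical
  refine ⟨?_, fun hc => hT.2 (coplanar_of_similar h hc)⟩
  obtain ⟨g, hg, hUg⟩ := h
  have h1 : U = T.image g := by
    apply Finset.coe_injective
    rw [hUg, Finset.coe_image]
  rw [h1, Finset.card_image_of_injective _ (similarity_injective hg), hT.1]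

theorem s_eq_copies (P T : Finset E3) (hT : IsTetrahedron T) : s P T = copies P T := by
  unfold s copies
  congr 1
  ext U
  simp only [Set.mem_ofPred_eq]
  constructor
  · rintro ⟨h1, -, -, h2⟩
    exact ⟨h1, h2⟩
  · rintro ⟨h1, h2⟩
    have h3 := tetra_of_similar hT h2
    exact ⟨h1, h3.1, h3, h2⟩

theorem s_le (P T : Finset E3) : s P T ≤ 2 ^ P.card := by
  classical
  unfold s
  rw [← Finset.card_powerset, ← Set.ncard_coe_finset]
  apply Set.ncard_le_ncard _ (Finset.finite_toSet _)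
  intro U hU
  rw [Finset.mem_coe, Finset.mem_powerset]
  exact hU.1

theorem s_le_f (P T : Finset E3) (hT : IsTetrahedron T) : s P T ≤ f P.card := by
  unfold f
  apply le_csSup
  · refine ⟨2 ^ P.card, ?_⟩
    rintro k ⟨P', T', hP', -, rfl⟩
    rw [← hP']
    exact s_le P' T'
  · exact ⟨P, T, rfl, hT, rfl⟩

/-- The corner tetrahedron. -/
def corner : Finset (Fin 3 → ℤ) := {![0, 0, 0], ![1, 0, 0], ![0, 1, 0], ![0, 0, 1]}

theorem corner_tetra : IsTetrahedron (corner.map zemb) := by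
  refine ⟨by rw [Finset.card_map]; decide, ?_⟩
  have hmem : ∀ v ∈ corner, zpt v ∈ ((corner.map zemb : Finset E3) : Set E3) := by
    intro v hv
    rw [Finset.mem_coe, Finset.mem_map]
    exact ⟨v, hv, rfl⟩
  have h0 := hmem ![0, 0, 0] (by decide)
  have h1 := hmem ![1, 0, 0] (by decide)
  have h2 := hmem ![0, 1, 0] (by decide)
  have h3 := hmem ![0, 0, 1] (by decide)
  have htop : vectorSpan ℝ ((corner.map zemb : Finset E3) : Set E3) = ⊤ := by
    rw [Submodule.eq_top_iff']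
    intro x
    have e : x = (x 0) • (zpt ![1, 0, 0] -ᵥ zpt ![0, 0, 0])
        + (x 1) • (zpt ![0, 1, 0] -ᵥ zpt ![0, 0, 0])
        + (x 2) • (zpt ![0, 0, 1] -ᵥ zpt ![0, 0, 0]) := by
      ext i
      fin_cases i <;> simp [zpt]
    rw [e]
    refine Submodule.add_mem _ (Submodule.add_mem _ ?_ ?_) ?_
    · exact Submodule.smul_mem _ _ (vsub_mem_vectorSpan ℝ h1 h0)
    · exact Submodule.smul_mem _ _ (vsub_mem_vectorSpan ℝ h2 h0)
    · exact Submodule.smul_mem _ _ (vsub_mem_vectorSpan ℝ h3 h0)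
  rw [coplanar_iff_finrank_le_two, htop, finrank_top]
  simp

theorem f_lower : ∃ c : ℝ, 0 < c ∧ ∃ n₀ : ℕ, ∀ n : ℕ, n₀ ≤ n →
    c * (n : ℝ) ^ (5 / 3 : ℝ) ≤ (f n : ℝ) := by
  obtain ⟨c, hc, n₀, h⟩ := lattice_copies corner corner_tetra.2
  refine ⟨c, hc, n₀, fun n hn => ?_⟩
  obtain ⟨P, hP, hle⟩ := h n hn
  refine hle.trans ?_
  rw [← s_eq_copies _ _ corner_tetra]
  have h1 := s_le_f (P.map zemb) _ corner_tetra
  rw [Finset.card_map, hP] at h1
  exact_mod_cast h1


end Pool.Agent.TH381.Tetra
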